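import Pool.Agent.H362R3.Chain
import Pool.Agent.H362R3.Bad

/-
The budget-constrained random graph process: a bounded-degree monotone property for which, at
times of the order of its hitting time (which is linear in `n`), a budget of `n ^ ε` suffices.
-/

namespace Pool.Agent.Results.MP_8d021f_pr.PolynomialSaving

open Filter Topology Finset Pool.Agent.H362R3

set_option autoImplicit false

/-- An ordering `e_0, e_1, ...` of the edges of the complete graph on `Fin n`
(`Edge n` is the type of unordered pairs of distinct vertices). -/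
abbrev Ordering (n : ℕ) := Fin (n.choose 2) ≃ Edge n

/-- Probability of an event under the uniformly random ordering. -/
noncomputable def prob (n : ℕ) (A : Ordering n → Prop) : ℝ :=
  (Nat.card {σ : Ordering n // A σ} : ℝ) / (Nat.card (Ordering n) : ℝ)

/-- The graph `G_t` formed by the first `t` edges. -/
def processGraph {n : ℕ} (σ : Ordering n) (t : ℕ) : SimpleGraph (Fin n) :=
  SimpleGraph.fromEdgeSet {e | ∃ i : Fin (n.choose 2), (i : ℕ) < t ∧ (σ i).1 = e}

/-- The hitting time of `P`. -/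
noncomputable def hittingTime {n : ℕ} (P : Set (SimpleGraph (Fin n))) (σ : Ordering n) : ℕ :=
  sInf {t : ℕ | processGraph σ t ∈ P}

/-- An online rule of Builder: `buys σ` is the set of times at which he buys; whether he buys at
time `i` depends only on the edges shown up to and including time `i`. -/
structure Strategy (n : ℕ) where
  /-- the times at which an edge is bought -/
  buys : Ordering n → Finset (Fin (n.choose 2))
  /-- decisions are online -/
  online : ∀ (σ σ' : Ordering n) (i : Fin (n.choose 2)),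
    (∀ j ≤ i, σ j = σ' j) → (i ∈ buys σ ↔ i ∈ buys σ')

/-- The times among the first `t` steps at which an edge is bought. -/
def Strategy.bought {n : ℕ} (S : Strategy n) (σ : Ordering n) (t : ℕ) :
    Finset (Fin (n.choose 2)) := (S.buys σ).filter (fun i : Fin (n.choose 2) => (i : ℕ) < t)

/-- The graph of the edges bought among the first `t`. -/
def Strategy.graph {n : ℕ} (S : Strategy n) (σ : Ordering n) (t : ℕ) : SimpleGraph (Fin n) :=
  SimpleGraph.fromEdgeSet {e | ∃ i ∈ S.bought σ t, (σ i).1 = e}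

/-- `P(n)` is closed under isomorphism for every `n`. -/
def IsoClosed (P : (n : ℕ) → Set (SimpleGraph (Fin n))) : Prop :=
  ∀ (n : ℕ) (G H : SimpleGraph (Fin n)), Nonempty (G ≃g H) → G ∈ P n → H ∈ P n

/-- `P(n)` is closed under adding edges for every `n`. -/
def Increasing (P : (n : ℕ) → Set (SimpleGraph (Fin n))) : Prop :=
  ∀ (n : ℕ) (G H : SimpleGraph (Fin n)), G ≤ H → G ∈ P n → H ∈ P n

/-- For some `Δ`, every minimal graph of every `P(n)` has maximum degree at most `Δ`. -/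
def BoundedDegree (P : (n : ℕ) → Set (SimpleGraph (Fin n))) : Prop :=
  ∃ Δ : ℕ, ∀ (n : ℕ) (G : SimpleGraph (Fin n)), Minimal (fun G => G ∈ P n) G →
    ∀ v : Fin n, (G.neighborSet v).ncard ≤ Δ

/-- the property used: containing a labelled binary tree with `k n + 1` nodes -/
def treeProp (k : ℕ → ℕ) (n : ℕ) : Set (SimpleGraph (Fin n)) := {G | HasTree G (k n + 1)}

theorem treeProp_iso (k : ℕ → ℕ) : IsoClosed (treeProp k) := by
  rintro n G H ⟨φ⟩ ⟨T, h1, h2, h3⟩
  refine ⟨T.map φ, BT.nodup_map φ φ.injective T h1, by rw [BT.size_map]; exact h2, ?_⟩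
  intro e he
  rw [BT.edges_map, Finset.mem_image] at he
  obtain ⟨e', he', rfl⟩ := he
  have := h3 e' he'
  induction e' with
  | _ x y =>
    rw [SimpleGraph.mem_edgeSet] at this
    rw [Sym2.map_mk, SimpleGraph.mem_edgeSet]
    exact φ.map_adj_iff.2 this

theorem treeProp_mono (k : ℕ → ℕ) : Increasing (treeProp k) := by
  rintro n G H hGH ⟨T, h1, h2, h3⟩
  exact ⟨T, h1, h2, fun e he => SimpleGraph.edgeSet_mono hGH (h3 e he)⟩

theorem treeProp_bdd (k : ℕ → ℕ) : BoundedDegree (treeProp k) := by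
  classical
  refine ⟨3, ?_⟩
  intro n G hG v
  obtain ⟨T, h1, h2, h3⟩ := hG.prop
  set H : SimpleGraph (Fin n) := SimpleGraph.fromEdgeSet (T.edges : Set (Sym2 (Fin n))) with hH
  have hHG : H ≤ G := by
    intro x y hxy
    rw [hH, SimpleGraph.fromEdgeSet_adj] at hxy
    exact h3 _ hxy.1
  have hHP : H ∈ treeProp k n := by
    refine ⟨T, h1, h2, ?_⟩
    intro e he
    rw [hH, SimpleGraph.edgeSet_fromEdgeSet]
    refine ⟨he, ?_⟩
    exact BT.edges_not_diag T h1 e he
  have hGH : G ≤ H := hG.le_of_le hHP hHG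
  have hsub : G.neighborSet v ⊆ {u | s(v, u) ∈ T.edges} := by
    intro u hu
    have := hGH hu
    rw [hH, SimpleGraph.fromEdgeSet_adj] at this
    exact this.1
  have hfin : ({u | s(v, u) ∈ T.edges} : Set (Fin n)).Finite := Set.toFinite _
  refine (Set.ncard_le_ncard hsub hfin).trans ?_
  rw [Set.ncard_eq_toFinset_card']
  refine le_trans ?_ (BT.degree_le T h1 v).1
  apply Finset.card_le_card_of_injOn (fun u => s(v, u))
  · intro u hu
    simp only [Set.coe_toFinset, Set.mem_ofPred_eq] at hu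
    simp only [Finset.coe_filter, Set.mem_ofPred_eq]
    exact ⟨hu, by simp⟩
  · intro a _ b _ hab
    simp only [Sym2.eq_iff] at hab
    rcases hab with ⟨_, h⟩ | ⟨h1, h2⟩
    · exact h
    · rw [h2, h1]

open Classical in
theorem prob_eq (n : ℕ) (A : Ordering n → Prop) :
    prob n A = ((Finset.univ.filter (fun σ : Ordering n => A σ)).card : ℝ)
      / ((n.choose 2).factorial : ℝ) := by
  unfold prob
  have e : Fin (n.choose 2) ≃ Edge n := (Fintype.equivFinOfCardEq (card_edge n)).symm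
  rw [Nat.card_eq_fintype_card, Nat.card_eq_fintype_card, Fintype.card_subtype,
    Fintype.card_equiv e, Fintype.card_fin]

theorem prob_nonneg (n : ℕ) (A : Ordering n → Prop) : 0 ≤ prob n A := by
  unfold prob; positivity

theorem prob_eq' (n : ℕ) (A : Ordering n → Prop) :
    prob n A = (({σ : Ordering n | A σ}.ncard : ℕ) : ℝ) / ((n.choose 2).factorial : ℝ) := by
  unfold prob
  have e : Fin (n.choose 2) ≃ Edge n := (Fintype.equivFinOfCardEq (card_edge n)).symm
  congr 2
  rw [Nat.card_eq_fintype_card, Fintype.card_equiv e, Fintype.card_fin]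

theorem prob_mono (n : ℕ) (A B : Ordering n → Prop) (h : ∀ σ, A σ → B σ) :
    prob n A ≤ prob n B := by
  rw [prob_eq', prob_eq']
  apply div_le_div_of_nonneg_right _ (by positivity)
  exact_mod_cast Set.ncard_le_ncard (fun σ hσ => h σ hσ) (Set.toFinite _)

theorem prob_or (n : ℕ) (A B : Ordering n → Prop) :
    prob n (fun σ => A σ ∨ B σ) ≤ prob n A + prob n B := by
  rw [prob_eq', prob_eq', prob_eq', ← add_div]
  apply div_le_div_of_nonneg_right _ (by positivity)
  exact_mod_cast Set.ncard_union_le {σ : Ordering n | A σ} {σ : Ordering n | B σ}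

theorem prob_not (n : ℕ) (A : Ordering n → Prop) :
    prob n A = 1 - prob n (fun σ => ¬ A σ) := by
  rw [prob_eq', prob_eq']
  have e : Fin (n.choose 2) ≃ Edge n := (Fintype.equivFinOfCardEq (card_edge n)).symm
  have h1 : Nat.card (Ordering n) = (n.choose 2).factorial := by
    rw [Nat.card_eq_fintype_card, Fintype.card_equiv e, Fintype.card_fin]
  have h2 := Set.ncard_add_ncard_compl {σ : Ordering n | A σ}
  rw [h1] at h2
  have h3 : (({σ : Ordering n | A σ}.ncard : ℕ) : ℝ) + (({σ : Ordering n | ¬ A σ}.ncard : ℕ) : ℝ)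
      = ((n.choose 2).factorial : ℝ) := by exact_mod_cast h2
  have h4 : ((n.choose 2).factorial : ℝ) ≠ 0 := by positivity
  rw [eq_sub_iff_add_eq, ← add_div, h3, div_self h4]

theorem prob_le_one (n : ℕ) (A : Ordering n → Prop) : prob n A ≤ 1 := by
  rw [prob_not]
  linarith [prob_nonneg n (fun σ => ¬ A σ)]

/-- the online rule -/
noncomputable def strat (n w k T : ℕ) : Strategy n where
  buys σ := if h : w ≤ n then buysAt k T (Fin.castLEEmb h) σ else ∅
  online := by
    intro σ σ' i h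
    by_cases hw : w ≤ n
    · simp only [dif_pos hw]
      exact buysAt_congr k T _ σ σ' i h
    · simp only [dif_neg hw]

theorem strat_card (n w k T t : ℕ) (σ : Ordering n) :
    ((strat n w k T).bought σ t).card ≤ w * k := by
  refine (Finset.card_le_card (Finset.filter_subset _ _)).trans ?_
  unfold strat
  by_cases hw : w ≤ n
  · simp only [dif_pos hw]
    exact card_buysAt k T _ σ
  · simp only [dif_neg hw, Finset.card_empty]
    exact Nat.zero_le _

theorem strat_graph_le (n : ℕ) (S : Strategy n) (σ : Ordering n) (t : ℕ) :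
    S.graph σ t ≤ processGraph σ t := by
  intro x y h
  unfold Strategy.graph at h
  unfold processGraph
  rw [SimpleGraph.fromEdgeSet_adj] at h ⊢
  obtain ⟨⟨i, hi, he⟩, hne⟩ := h
  exact ⟨⟨i, (Finset.mem_filter.1 hi).2, he⟩, hne⟩

/-- failure probability of the strategy -/
theorem strat_fail (n w k T : ℕ) (hk : 0 < k) (hT : 0 < T) (hkn : k ≤ n)
    (hw : 4 * (w * (k + 1)) ≤ n) (hT2 : 2 * n ≤ k * T) (hN : 256 * (k * T) ≤ n.choose 2) :
    prob n (fun σ => ¬ HasTree ((strat n w k T).graph σ (k * T)) (k + 1))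
      ≤ n * (1 / 2 : ℝ) ^ n + (1 - (1 / 6 : ℝ) ^ k) ^ w := by
  classical
  have hn : 0 < n := by omega
  have hwn : w ≤ n := by
    have : w * 1 ≤ w * (k + 1) := Nat.mul_le_mul_left _ (by omega)
    omega
  have hkT0 : 0 < k * T := Nat.mul_pos hk hT
  have hN0 : 0 < n.choose 2 := by omega
  have hfac : (0 : ℝ) < ((n.choose 2).factorial : ℝ) := by positivity
  set root : Fin w ↪ Fin n := Fin.castLEEmb hwn with hroot
  have h1 : prob n (fun σ => ¬ HasTree ((strat n w k T).graph σ (k * T)) (k + 1))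
      ≤ prob n (fun σ => ¬ goodAt σ (k * T) ∨
        (goodAt σ (k * T) ∧ ∀ r, (state k T root σ (k * T) r).size ≠ k + 1)) := by
    apply prob_mono
    intro σ hσ
    by_cases hg : goodAt σ (k * T)
    · right
      refine ⟨hg, ?_⟩
      intro r hr
      apply hσ
      refine ⟨state k T root σ (k * T) r, (inv_state k T root σ (k * T)).1 r, hr, ?_⟩
      intro e he
      obtain ⟨j, hj1, hj2, hj3⟩ := edges_bought k T root σ (k * T) r e he
      unfold Strategy.graph
      rw [SimpleGraph.edgeSet_fromEdgeSet]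
      refine ⟨⟨j, ?_, hj3⟩, ?_⟩
      · unfold Strategy.bought strat
        rw [Finset.mem_filter]
        refine ⟨?_, hj2⟩
        simp only [dif_pos hwn]
        exact hj1
      · rw [← hj3]
        exact (σ j).2
    · left; exact hg
  refine h1.trans ((prob_or n _ _).trans ?_)
  apply add_le_add
  · rw [prob_eq, div_le_iff₀ hfac]
    refine le_trans (le_of_eq ?_) ((bad_card (k * T) hN0 hN).trans (le_of_eq (mul_comm _ _)))
    congr!
  · rw [prob_eq, div_le_iff₀ hfac]
    refine le_trans (le_of_eq ?_) ((fail_card k T hT root hkn (by omega) hw).trans ?_)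
    · congr!
    rw [mul_comm]
    apply mul_le_mul_of_nonneg_right _ hfac.le
    have hF := Fs_mem n T k 0 hkn
    have hF2 := Fs_ge n T k hn hk hkn hT2
    exact pow_le_pow_left₀ (by linarith [hF.2]) (by linarith) w

/-- early trees are unlikely -/
theorem early_tree (n k t : ℕ) (hN0 : 0 < n.choose 2) :
    prob n (fun σ => HasTree (processGraph σ t) (k + 1))
      ≤ (4 * n : ℝ) ^ (k + 1) * ((t : ℝ) / (n.choose 2 : ℕ)) ^ k := by
  classical
  have hfac : (0 : ℝ) < ((n.choose 2).factorial : ℝ) := by positivity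
  have h1 : prob n (fun σ => HasTree (processGraph σ t) (k + 1))
      ≤ prob n (fun σ => ∃ T : BT (Fin n), T.Nodup ∧ T.size = k + 1 ∧
        ∀ e ∈ T.edges, ∃ i : Fin (n.choose 2), (i : ℕ) < t ∧ (σ i).1 = e) := by
    apply prob_mono
    rintro σ ⟨T, h1, h2, h3⟩
    refine ⟨T, h1, h2, ?_⟩
    intro e he
    have := h3 e he
    unfold processGraph at this
    rw [SimpleGraph.edgeSet_fromEdgeSet] at this
    exact this.1
  refine h1.trans ?_
  rw [prob_eq, div_le_iff₀ hfac]
  refine (tree_card t k hN0).trans (le_of_eq (by ring))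

theorem processGraph_mono {n : ℕ} (σ : Ordering n) {s t : ℕ} (h : s ≤ t) :
    processGraph σ s ≤ processGraph σ t := by
  intro x y hxy
  unfold processGraph at hxy ⊢
  rw [SimpleGraph.fromEdgeSet_adj] at hxy ⊢
  obtain ⟨⟨i, hi, he⟩, hne⟩ := hxy
  exact ⟨⟨i, hi.trans_le h, he⟩, hne⟩

theorem hitting_bounds {n : ℕ} (P : Set (SimpleGraph (Fin n)))
    (hP : ∀ G H : SimpleGraph (Fin n), G ≤ H → G ∈ P → H ∈ P) (σ : Ordering n) (t0 t : ℕ)
    (h0 : processGraph σ t0 ∉ P) (h1 : processGraph σ t ∈ P) :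
    t0 < hittingTime P σ ∧ hittingTime P σ ≤ t := by
  have hmem : hittingTime P σ ∈ {t : ℕ | processGraph σ t ∈ P} := Nat.sInf_mem ⟨t, h1⟩
  refine ⟨?_, Nat.sInf_le h1⟩
  by_contra hcon
  exact h0 (hP _ _ (processGraph_mono σ (not_lt.1 hcon)) hmem)

/-- deterministic numerical facts -/
theorem numerics (B n : ℕ) (hB : 56 ≤ B) (hn : 1537 ≤ n) (hnB : 64 * B ≤ n) :
    0 < Nat.log B n ∧ Nat.log B n ≤ n ∧
    4 * (7 ^ (Nat.log B n) * (Nat.log B n + 1)) ≤ n ∧
    2 * n ≤ Nat.log B n * (2 * n / Nat.log B n + 1) ∧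
    Nat.log B n * (2 * n / Nat.log B n + 1) ≤ 3 * n ∧
    256 * (Nat.log B n * (2 * n / Nat.log B n + 1)) ≤ n.choose 2 := by
  set k := Nat.log B n with hk
  have hk0 : 0 < k := Nat.log_pos (by omega) (by omega)
  have hBk : B ^ k ≤ n := Nat.pow_log_le_self B (by omega)
  have h2k : k < 2 ^ k := Nat.lt_two_pow_self
  have h56 : 56 ^ k ≤ n := (Nat.pow_le_pow_left hB k).trans hBk
  have h2 : 2 ^ k ≤ 56 ^ k := Nat.pow_le_pow_left (by norm_num) k
  have hkn : k ≤ n := by omega
  have h3 : 4 * (7 ^ k * (k + 1)) ≤ n := by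
    calc 4 * (7 ^ k * (k + 1)) ≤ 4 ^ k * (7 ^ k * 2 ^ k) := by
          apply Nat.mul_le_mul
          · calc 4 = 4 ^ 1 := by norm_num
              _ ≤ 4 ^ k := Nat.pow_le_pow_right (by norm_num) hk0
          · exact Nat.mul_le_mul_left _ h2k
      _ = 56 ^ k := by rw [← mul_pow, ← mul_pow]; norm_num
      _ ≤ n := h56
  have h4 : 2 * n ≤ k * (2 * n / k + 1) := (Nat.lt_mul_div_succ _ hk0).le
  have h5 : k * (2 * n / k + 1) ≤ 3 * n := by
    have := Nat.mul_div_le (2 * n) k
    calc k * (2 * n / k + 1) = k * (2 * n / k) + k := by ring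
      _ ≤ 3 * n := by omega
  refine ⟨hk0, hkn, h3, h4, h5, ?_⟩
  have h6 : 256 * (3 * n) ≤ n.choose 2 := by
    have h7 : ((n.choose 2 : ℕ) : ℝ) = (n : ℝ) * (n - 1) / 2 := Nat.cast_choose_two ℝ n
    have h8 : (1537 : ℝ) ≤ n := by exact_mod_cast hn
    have h9 : ((256 * (3 * n) : ℕ) : ℝ) ≤ ((n.choose 2 : ℕ) : ℝ) := by
      rw [h7]
      push_cast
      nlinarith
    exact_mod_cast h9
  omega

theorem early_small (B n : ℕ) (hB : 56 ≤ B) (hn : 1537 ≤ n) (hnB : 64 * B ≤ n) :
    prob n (fun σ => HasTree (processGraph σ ⌈(1 / (64 * B) : ℝ) * n⌉₊) (Nat.log B n + 1))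
      ≤ 4 * B * (1 / 2 : ℝ) ^ (Nat.log B n) := by
  set k := Nat.log B n with hk
  have hn0 : (0 : ℝ) < n := by
    have : 0 < n := by omega
    exact_mod_cast this
  have hB0 : (0 : ℝ) < B := by
    have : 0 < B := by omega
    exact_mod_cast this
  have h7 : ((n.choose 2 : ℕ) : ℝ) = (n : ℝ) * (n - 1) / 2 := Nat.cast_choose_two ℝ n
  have h8 : (1537 : ℝ) ≤ n := by exact_mod_cast hn
  have hN : (n : ℝ) * n / 4 ≤ ((n.choose 2 : ℕ) : ℝ) := by
    rw [h7]; nlinarith
  have hN0 : 0 < n.choose 2 := by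
    have : (0 : ℝ) < ((n.choose 2 : ℕ) : ℝ) := lt_of_lt_of_le (by positivity) hN
    exact_mod_cast this
  refine (early_tree n k _ hN0).trans ?_
  have hlt : (n : ℝ) ≤ (B : ℝ) ^ (k + 1) := by
    have := (Nat.lt_pow_succ_log_self (b := B) (by omega) n).le
    exact_mod_cast this
  have ht0 : ((⌈(1 / (64 * B) : ℝ) * n⌉₊ : ℕ) : ℝ) ≤ n / (32 * B) := by
    have h1 := (Nat.ceil_lt_add_one (a := (1 / (64 * B) : ℝ) * n) (by positivity)).le
    have h2 : (1 : ℝ) ≤ (1 / (64 * B) : ℝ) * n := by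
      rw [div_mul_eq_mul_div, le_div_iff₀ (by positivity)]
      have : ((64 * B : ℕ) : ℝ) ≤ n := by exact_mod_cast hnB
      push_cast at this
      linarith
    have h3 : (1 / (64 * B) : ℝ) * n + (1 / (64 * B) : ℝ) * n = n / (32 * B) := by
      field_simp
      norm_num
    linarith
  have hr : ((⌈(1 / (64 * B) : ℝ) * n⌉₊ : ℕ) : ℝ) / (n.choose 2 : ℕ) ≤ 1 / (8 * B * n) := by
    rw [div_le_div_iff₀ (by exact_mod_cast hN0) (by positivity), one_mul]
    calc ((⌈(1 / (64 * B) : ℝ) * n⌉₊ : ℕ) : ℝ) * (8 * B * n)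
        ≤ n / (32 * B) * (8 * B * n) := mul_le_mul_of_nonneg_right ht0 (by positivity)
      _ = (n : ℝ) * n / 4 := by field_simp; norm_num
      _ ≤ _ := hN
  calc (4 * n : ℝ) ^ (k + 1)
        * (((⌈(1 / (64 * B) : ℝ) * n⌉₊ : ℕ) : ℝ) / (n.choose 2 : ℕ)) ^ k
      ≤ (4 * n : ℝ) ^ (k + 1) * (1 / (8 * B * n)) ^ k := by
        apply mul_le_mul_of_nonneg_left _ (by positivity)
        exact pow_le_pow_left₀ (by positivity) hr k
    _ = 4 * n * ((4 * n) * (1 / (8 * B * n))) ^ k := by rw [mul_pow (4 * (n : ℝ))]; ring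
    _ = 4 * n * (1 / (2 * B)) ^ k := by
        congr 2
        field_simp
        norm_num
    _ ≤ 4 * (B : ℝ) ^ (k + 1) * (1 / (2 * B)) ^ k := by
        apply mul_le_mul_of_nonneg_right _ (by positivity)
        linarith
    _ = 4 * B * ((B : ℝ) * (1 / (2 * B))) ^ k := by rw [mul_pow (B : ℝ)]; ring
    _ = 4 * B * (1 / 2 : ℝ) ^ k := by
        congr 2
        field_simp

theorem tendsto_log (B : ℕ) (hB : 56 ≤ B) : Tendsto (fun n => Nat.log B n) atTop atTop := by
  rw [tendsto_atTop]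
  intro m
  filter_upwards [eventually_ge_atTop (B ^ m)] with n hn
  exact Nat.le_log_of_pow_le (by omega) hn

theorem tendsto_err3 : Tendsto (fun k : ℕ => (1 - (1 / 6 : ℝ) ^ k) ^ (7 ^ k)) atTop (𝓝 0) := by
  have h1 : Tendsto (fun k : ℕ => Real.exp (-((7 / 6 : ℝ) ^ k))) atTop (𝓝 0) :=
    Real.tendsto_exp_neg_atTop_nhds_zero.comp
      (tendsto_pow_atTop_atTop_of_one_lt (by norm_num))
  refine squeeze_zero (fun k => ?_) (fun k => ?_) h1
  · apply pow_nonneg
    have : (1 / 6 : ℝ) ^ k ≤ 1 := pow_le_one₀ (by norm_num) (by norm_num)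
    linarith
  · have h2 : (1 / 6 : ℝ) ^ k ≤ 1 := pow_le_one₀ (by norm_num) (by norm_num)
    have h3 : 1 - (1 / 6 : ℝ) ^ k ≤ Real.exp (-((1 / 6 : ℝ) ^ k)) := by
      linarith [Real.add_one_le_exp (-((1 / 6 : ℝ) ^ k))]
    calc (1 - (1 / 6 : ℝ) ^ k) ^ (7 ^ k) ≤ (Real.exp (-((1 / 6 : ℝ) ^ k))) ^ (7 ^ k) :=
          pow_le_pow_left₀ (by linarith) h3 _
      _ = Real.exp (-((7 / 6 : ℝ) ^ k)) := by
        rw [← Real.exp_nat_mul]
        congr 1
        push_cast
        rw [mul_neg, ← mul_pow]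
        norm_num

/-- **Answer to Q1: yes, with a polynomial saving.** For every `ε > 0` there is a bounded-degree
monotone increasing property `P`, closed under isomorphism, whose hitting time is a.a.s. of order
`n`, and, for suitable `t(n)` with `2 n ≤ t(n) ≤ 3 n` for large `n` and a budget `b(n) ≤ n ^ ε`
for large `n` (in particular `b = o(t / log n)`), there is a successful `(t, b)`-strategy
for `P`. -/
theorem result (ε : ℝ) (hε : 0 < ε) : ∃ P : (n : ℕ) → Set (SimpleGraph (Fin n)),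
    IsoClosed P ∧ Increasing P ∧ BoundedDegree P ∧
    (∃ c C : ℝ, 0 < c ∧ 0 < C ∧
      Tendsto (fun n : ℕ => prob n (fun σ =>
        c * n ≤ hittingTime (P n) σ ∧ (hittingTime (P n) σ : ℝ) ≤ C * n)) atTop (𝓝 1)) ∧
    ∃ t b : ℕ → ℕ,
      (∀ᶠ n : ℕ in atTop, 2 * n ≤ t n ∧ t n ≤ 3 * n) ∧
      (∀ᶠ n : ℕ in atTop, (b n : ℝ) ≤ (n : ℝ) ^ ε) ∧
      Tendsto (fun n : ℕ => (b n : ℝ) / ((t n : ℝ) / Real.log n)) atTop (𝓝 0) ∧
      ∃ S : (n : ℕ) → Strategy n,
        (∀ (n : ℕ) (σ : Ordering n), ((S n).bought σ (t n)).card ≤ b n) ∧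
        Tendsto (fun n : ℕ => prob n (fun σ => (S n).graph σ (t n) ∈ P n)) atTop (𝓝 1) := by
  -- parameters
  set δ : ℝ := min ε (1 / 2) with hδ
  have hδ0 : 0 < δ := lt_min hε (by norm_num)
  have hδε : δ ≤ ε := min_le_left _ _
  have hδ2 : δ ≤ 1 / 2 := min_le_right _ _
  obtain ⟨B, hB, hB14⟩ : ∃ B : ℕ, 56 ≤ B ∧ (14 : ℝ) ≤ (B : ℝ) ^ δ := by
    refine ⟨max 56 ⌈(14 : ℝ) ^ (1 / δ)⌉₊, le_max_left _ _, ?_⟩
    have h1 : (14 : ℝ) ^ (1 / δ) ≤ ((max 56 ⌈(14 : ℝ) ^ (1 / δ)⌉₊ : ℕ) : ℝ) := by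
      refine (Nat.le_ceil _).trans ?_
      exact_mod_cast le_max_right _ _
    calc (14 : ℝ) = ((14 : ℝ) ^ (1 / δ)) ^ δ := by
          rw [← Real.rpow_mul (by norm_num), one_div, inv_mul_cancel₀ hδ0.ne', Real.rpow_one]
      _ ≤ _ := Real.rpow_le_rpow (by positivity) h1 hδ0.le
  have hBR : (0 : ℝ) < B := by
    have : 0 < B := by omega
    exact_mod_cast this
  set k : ℕ → ℕ := fun n => Nat.log B n with hk
  set T : ℕ → ℕ := fun n => 2 * n / k n + 1 with hT
  set t : ℕ → ℕ := fun n => k n * T n with ht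
  set b : ℕ → ℕ := fun n => 7 ^ (k n) * k n with hb
  have hev : ∀ᶠ n : ℕ in atTop, 1537 ≤ n ∧ 64 * B ≤ n :=
    (eventually_ge_atTop 1537).and (eventually_ge_atTop (64 * B))
  -- error terms
  have hkt : Tendsto k atTop atTop := tendsto_log B hB
  have he1 : Tendsto (fun n : ℕ => 4 * (B : ℝ) * (1 / 2 : ℝ) ^ (k n)) atTop (𝓝 0) := by
    have := ((tendsto_pow_atTop_nhds_zero_of_lt_one (r := (1 / 2 : ℝ)) (by norm_num)
      (by norm_num)).comp hkt).const_mul (4 * (B : ℝ))
    simpa using this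
  have he2 : Tendsto (fun n : ℕ => (n : ℝ) * (1 / 2 : ℝ) ^ n) atTop (𝓝 0) :=
    tendsto_self_mul_const_pow_of_lt_one (by norm_num) (by norm_num)
  have he3 : Tendsto (fun n : ℕ => (1 - (1 / 6 : ℝ) ^ (k n)) ^ (7 ^ (k n))) atTop (𝓝 0) :=
    tendsto_err3.comp hkt
  have hfail : ∀ᶠ n : ℕ in atTop,
      prob n (fun σ => ¬ HasTree ((strat n (7 ^ k n) (k n) (T n)).graph σ (t n)) (k n + 1))
        ≤ n * (1 / 2 : ℝ) ^ n + (1 - (1 / 6 : ℝ) ^ (k n)) ^ (7 ^ (k n)) := by
    filter_upwards [hev] with n hn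
    obtain ⟨h1, h2, h3, h4, h5, h6⟩ := numerics B n hB hn.1 hn.2
    exact strat_fail n (7 ^ k n) (k n) (T n) h1 (Nat.succ_pos _) h2 h3 h4 h6
  refine ⟨treeProp k, treeProp_iso k, treeProp_mono k, treeProp_bdd k, ?_, t, b, ?_, ?_, ?_,
    fun n => strat n (7 ^ k n) (k n) (T n), ?_, ?_⟩
  · -- hitting time
    refine ⟨1 / (64 * B), 3, by positivity, by norm_num, ?_⟩
    have hlow : ∀ᶠ n : ℕ in atTop, 1 - (4 * (B : ℝ) * (1 / 2 : ℝ) ^ (k n)
        + (n * (1 / 2 : ℝ) ^ n + (1 - (1 / 6 : ℝ) ^ (k n)) ^ (7 ^ (k n))))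
        ≤ prob n (fun σ => (1 / (64 * B) : ℝ) * n ≤ hittingTime (treeProp k n) σ ∧
          (hittingTime (treeProp k n) σ : ℝ) ≤ 3 * n) := by
      filter_upwards [hev, hfail] with n hn hf
      obtain ⟨h1, h2, h3, h4, h5, h6⟩ := numerics B n hB hn.1 hn.2
      have hes := early_small B n hB hn.1 hn.2
      rw [prob_not]
      have hle : prob n (fun σ => ¬ ((1 / (64 * B) : ℝ) * n ≤ hittingTime (treeProp k n) σ ∧
          (hittingTime (treeProp k n) σ : ℝ) ≤ 3 * n))
          ≤ prob n (fun σ => HasTree (processGraph σ ⌈(1 / (64 * B) : ℝ) * n⌉₊) (k n + 1) ∨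
            ¬ HasTree ((strat n (7 ^ k n) (k n) (T n)).graph σ (t n)) (k n + 1)) := by
        apply prob_mono
        intro σ hσ
        by_contra hcon
        push Not at hcon
        obtain ⟨hc1, hc2⟩ := hcon
        apply hσ
        have hmem : processGraph σ (t n) ∈ treeProp k n :=
          treeProp_mono k n _ _ (strat_graph_le n _ σ (t n)) hc2
        obtain ⟨hb1, hb2⟩ := hitting_bounds (treeProp k n) (treeProp_mono k n) σ _ (t n) hc1 hmem
        constructor
        · refine (Nat.le_ceil _).trans ?_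
          exact_mod_cast hb1.le
        · have : hittingTime (treeProp k n) σ ≤ 3 * n := hb2.trans h5
          exact_mod_cast this
      have := hle.trans (prob_or n _ _)
      linarith
    have hlim : Tendsto (fun n : ℕ => 1 - (4 * (B : ℝ) * (1 / 2 : ℝ) ^ (k n)
        + (n * (1 / 2 : ℝ) ^ n + (1 - (1 / 6 : ℝ) ^ (k n)) ^ (7 ^ (k n))))) atTop (𝓝 1) := by
      have := (he1.add (he2.add he3)).const_sub 1
      simpa using this
    exact tendsto_of_tendsto_of_tendsto_of_le_of_le' hlim tendsto_const_nhds hlow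
      (Eventually.of_forall (fun n => prob_le_one n _))
  · filter_upwards [hev] with n hn
    obtain ⟨h1, h2, h3, h4, h5, h6⟩ := numerics B n hB hn.1 hn.2
    exact ⟨h4, h5⟩
  · -- budget
    filter_upwards [hev] with n hn
    have hn0 : n ≠ 0 := by omega
    have hn1 : (1 : ℝ) ≤ n := by
      have : 1 ≤ n := by omega
      exact_mod_cast this
    have hBk : ((B : ℝ)) ^ (k n) ≤ n := by exact_mod_cast Nat.pow_log_le_self B hn0
    have h2k : k n < 2 ^ (k n) := Nat.lt_two_pow_self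
    have h14 : b n ≤ 14 ^ (k n) := by
      calc b n ≤ 7 ^ (k n) * 2 ^ (k n) := Nat.mul_le_mul_left _ h2k.le
        _ = 14 ^ (k n) := by rw [← mul_pow]; norm_num
    calc (b n : ℝ) ≤ (14 : ℝ) ^ (k n) := by exact_mod_cast h14
      _ ≤ ((B : ℝ) ^ δ) ^ (k n) := pow_le_pow_left₀ (by norm_num) hB14 _
      _ = ((B : ℝ) ^ (k n)) ^ δ := by
        rw [← Real.rpow_natCast, ← Real.rpow_mul hBR.le, mul_comm, Real.rpow_mul hBR.le,
          Real.rpow_natCast]
      _ ≤ (n : ℝ) ^ δ := Real.rpow_le_rpow (by positivity) hBk hδ0.le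
      _ ≤ (n : ℝ) ^ ε := Real.rpow_le_rpow_of_exponent_le hn1 hδε
  · -- b = o (t / log n)
    have hlim : Tendsto (fun n : ℕ => Real.log n / (n : ℝ) ^ (1 / 2 : ℝ)) atTop (𝓝 0) := by
      have := (isLittleO_log_rpow_atTop (r := 1 / 2) (by norm_num)).tendsto_div_nhds_zero
      exact this.comp tendsto_natCast_atTop_atTop
    refine squeeze_zero' ?_ ?_ hlim
    · filter_upwards [hev] with n hn
      have hn1 : (1 : ℝ) ≤ n := by
        have : 1 ≤ n := by omega
        exact_mod_cast this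
      have : 0 ≤ Real.log n := Real.log_nonneg hn1
      positivity
    · filter_upwards [hev] with n hn
      obtain ⟨h1, h2, h3, h4, h5, h6⟩ := numerics B n hB hn.1 hn.2
      have hn0 : n ≠ 0 := by omega
      have hn1 : (1 : ℝ) ≤ n := by
        have : 1 ≤ n := by omega
        exact_mod_cast this
      have hnpos : (0 : ℝ) < n := by linarith
      have hlog : 0 ≤ Real.log n := Real.log_nonneg hn1
      have hBk : ((B : ℝ)) ^ (k n) ≤ n := by exact_mod_cast Nat.pow_log_le_self B hn0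
      have h2k : k n < 2 ^ (k n) := Nat.lt_two_pow_self
      have h14 : b n ≤ 14 ^ (k n) := by
        calc b n ≤ 7 ^ (k n) * 2 ^ (k n) := Nat.mul_le_mul_left _ h2k.le
          _ = 14 ^ (k n) := by rw [← mul_pow]; norm_num
      have hbn : (b n : ℝ) ≤ (n : ℝ) ^ (1 / 2 : ℝ) := by
        calc (b n : ℝ) ≤ (14 : ℝ) ^ (k n) := by exact_mod_cast h14
          _ ≤ ((B : ℝ) ^ δ) ^ (k n) := pow_le_pow_left₀ (by norm_num) hB14 _
          _ = ((B : ℝ) ^ (k n)) ^ δ := by
            rw [← Real.rpow_natCast, ← Real.rpow_mul hBR.le, mul_comm, Real.rpow_mul hBR.le,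
              Real.rpow_natCast]
          _ ≤ (n : ℝ) ^ δ := Real.rpow_le_rpow (by positivity) hBk hδ0.le
          _ ≤ (n : ℝ) ^ (1 / 2 : ℝ) := Real.rpow_le_rpow_of_exponent_le hn1 hδ2
      have htn : (n : ℝ) ≤ (t n : ℝ) := by
        have : n ≤ t n := by
          have : 2 * n ≤ t n := h4
          omega
        exact_mod_cast this
      have htpos : (0 : ℝ) < t n := lt_of_lt_of_le hnpos htn
      rw [div_div_eq_mul_div, div_le_div_iff₀ htpos (by positivity)]
      have hsq : (n : ℝ) ^ (1 / 2 : ℝ) * (n : ℝ) ^ (1 / 2 : ℝ) = n := by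
        rw [← Real.rpow_add hnpos]; norm_num
      calc (b n : ℝ) * Real.log n * (n : ℝ) ^ (1 / 2 : ℝ)
          ≤ (n : ℝ) ^ (1 / 2 : ℝ) * Real.log n * (n : ℝ) ^ (1 / 2 : ℝ) := by gcongr
        _ = Real.log n * ((n : ℝ) ^ (1 / 2 : ℝ) * (n : ℝ) ^ (1 / 2 : ℝ)) := by ring
        _ = Real.log n * n := by rw [hsq]
        _ ≤ Real.log n * t n := mul_le_mul_of_nonneg_left htn hlog
  · intro n σ
    exact strat_card n (7 ^ k n) (k n) (T n) (t n) σ
  · -- success
    have hlow : ∀ᶠ n : ℕ in atTop, 1 - (n * (1 / 2 : ℝ) ^ n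
        + (1 - (1 / 6 : ℝ) ^ (k n)) ^ (7 ^ (k n)))
        ≤ prob n (fun σ => (strat n (7 ^ k n) (k n) (T n)).graph σ (t n) ∈ treeProp k n) := by
      filter_upwards [hfail] with n hf
      rw [prob_not]
      have : prob n (fun σ => ¬ ((strat n (7 ^ k n) (k n) (T n)).graph σ (t n) ∈ treeProp k n))
          = prob n (fun σ =>
            ¬ HasTree ((strat n (7 ^ k n) (k n) (T n)).graph σ (t n)) (k n + 1)) := rfl
      rw [this]
      linarith
    have hlim : Tendsto (fun n : ℕ => 1 - (n * (1 / 2 : ℝ) ^ n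
        + (1 - (1 / 6 : ℝ) ^ (k n)) ^ (7 ^ (k n)))) atTop (𝓝 1) := by
      have := (he2.add he3).const_sub 1
      simpa using this
    exact tendsto_of_tendsto_of_tendsto_of_le_of_le' hlim tendsto_const_nhds hlow
      (Eventually.of_forall (fun n => prob_le_one n _))

end Pool.Agent.Results.MP_8d021f_pr.PolynomialSaving
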